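import Mathlib

set_option autoImplicit false

namespace Pool.Agent.H228R4

open Finset

/-- Fill the variable positions of a pattern `t : N → J ⊕ A` with the letters `u`, keeping the
fixed letters. -/
def ev {N J A : Type} (t : N → J ⊕ A) (u : J → A) : N → A :=
  fun i => Sum.elim u id (t i)

/-- Indicator that a symbol is the variable `p`. -/
noncomputable def ind {J A : Type} (z : J ⊕ A) (p : J) : ℕ := by
  classical exact if z = Sum.inl p then 1 else 0

lemma ind_inl {J A : Type} (p : J) : ind (Sum.inl p : J ⊕ A) p = 1 := by
  unfold ind; simp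

lemma ind_inr {J A : Type} (a : A) (p : J) : ind (Sum.inr a : J ⊕ A) p = 0 := by
  unfold ind; simp

lemma ind_inl_ne {J A : Type} {q p : J} (h : q ≠ p) : ind (Sum.inl q : J ⊕ A) p = 0 := by
  unfold ind
  rw [if_neg]
  intro hh
  exact h (Sum.inl.inj hh)

/-- The number of positions of the pattern `t` carrying the variable `p`. -/
noncomputable def cnt {N J A : Type} [Fintype N] (t : N → J ⊕ A) (p : J) : ℕ :=
  ∑ i, ind (t i) p

/-- Substitution of patterns. -/
def sub {N J I A : Type} (t : N → J ⊕ A) (s : J → I ⊕ A) : N → I ⊕ A :=
  fun i => Sum.elim s Sum.inr (t i)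

lemma ev_sub {N J I A : Type} (t : N → J ⊕ A) (s : J → I ⊕ A) (u : I → A) :
    ev (sub t s) u = ev t (ev s u) := by
  funext i
  unfold ev sub
  cases t i <;> simp

/-- General counting lemma: a pattern whose `i`-th entry is determined through `t i`. -/
lemma sum_elim_count {N J A : Type} [Fintype N] [Fintype J] (t : N → J ⊕ A)
    (g : J ⊕ A → ℕ) (hg : ∀ a, g (Sum.inr a) = 0) :
    ∑ i, g (t i) = ∑ j, cnt t j * g (Sum.inl j) := by
  classical
  have h1 : ∀ i, g (t i) = ∑ j, ind (t i) j * g (Sum.inl j) := by
    intro i
    cases t i with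
    | inl j0 =>
      rw [Finset.sum_eq_single j0]
      · rw [ind_inl]; simp
      · intro b _ hb
        rw [ind_inl_ne (Ne.symm hb)]; simp
      · intro hh; exact absurd (Finset.mem_univ _) hh
    | inr a => simp [hg, ind_inr]
  simp_rw [h1]
  rw [Finset.sum_comm]
  refine Finset.sum_congr rfl fun j _ => ?_
  rw [← Finset.sum_mul]
  rfl

lemma cnt_sub {N J I A : Type} [Fintype N] [Fintype J] (t : N → J ⊕ A) (s : J → I ⊕ A) (p : I) :
    cnt (sub t s) p = ∑ j, cnt t j * ind (s j) p := by
  have := sum_elim_count t (fun z => ind (Sum.elim s Sum.inr z : I ⊕ A) p)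
    (by intro a; simp [ind_inr])
  simpa [sub, cnt] using this

lemma cnt_sub_const {N J I A : Type} [Fintype N] [Fintype J] (t : N → J ⊕ A) (s : J → I ⊕ A)
    (d : ℕ) (hd : ∀ j, cnt t j = d) (p : I) : cnt (sub t s) p = d * cnt s p := by
  rw [cnt_sub]
  simp_rw [hd]
  rw [← Finset.mul_sum]
  rfl

/-- The systems: a set `J` of leaves and a value map on words `J → A`, built from the
one-letter system, the unordered pair system and composition. -/
inductive Sys : (A J V : Type) → ((J → A) → V) → Prop
  | base (A : Type) : Sys A Unit A (fun u => u ())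
  | pair (A : Type) : Sys A Bool (Sym2 A) (fun u => s(u false, u true))
  | comp {A J V J' V' : Type} (val : (J → A) → V) (val' : (J' → V) → V') :
      Sys A J V val → Sys V J' V' val' →
      Sys A (J × J') V' (fun u => val' (fun j' => val (fun j => u (j, j'))))

lemma Sys.surj {A J V : Type} {val : (J → A) → V} (h : Sys A J V val) :
    Function.Surjective val := by
  induction h with
  | base A => intro a; exact ⟨fun _ => a, rfl⟩
  | pair A =>
    intro z
    induction z using Sym2.ind with
    | _ x y => exact ⟨fun b => if b then y else x, by simp⟩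
  | comp val val' _ _ ih ih' =>
    intro z
    obtain ⟨v, hv⟩ := ih' z
    choose w hw using ih
    refine ⟨fun p => w (v p.2) p.1, ?_⟩
    have : (fun j' => val (fun j => w (v j') j)) = v := by
      funext j'; exact hw (v j')
    simpa [this] using hv

lemma Sys.finJ {A J V : Type} {val : (J → A) → V} (h : Sys A J V val) : Finite J := by
  induction h with
  | base A => infer_instance
  | pair A => infer_instance
  | comp val val' _ _ ih ih' => infer_instance

lemma Sys.finV {A J V : Type} {val : (J → A) → V} (h : Sys A J V val) [Finite A] :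
    Finite V := by
  have := h.finJ
  exact Finite.of_surjective val h.surj

end Pool.Agent.H228R4
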