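import Pool.Agent.H228R4.Basic

set_option autoImplicit false

namespace Pool.Agent.H228R4

open Finset

lemma cnt_inj {J I A : Type} [Fintype J] (f : J → I) (hf : Function.Injective f) (j0 : J) :
    cnt (fun j => (Sum.inl (f j) : I ⊕ A)) (f j0) = 1 := by
  unfold cnt
  rw [Finset.sum_eq_single j0]
  · exact ind_inl _
  · intro b _ hb
    exact ind_inl_ne (fun h => hb (hf h))
  · intro h; exact absurd (Finset.mem_univ _) h

lemma cnt_not_range {J I A : Type} [Fintype J] (f : J → I) (p : I) (hp : ∀ j, f j ≠ p) :
    cnt (fun j => (Sum.inl (f j) : I ⊕ A)) p = 0 := by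
  unfold cnt
  refine Finset.sum_eq_zero fun j _ => ind_inl_ne (hp j)

/-- The Ramsey property with block size `d` for a relation `R` between words over `J`. -/
def RR (A J : Type) (R : (J → A) → (J → A) → Prop) (d : ℕ) : Prop :=
  ∀ K : Type, Finite K → ∃ (N : Type) (_ : Fintype N), ∀ c : (N → A) → K,
    ∃ t : N → J ⊕ A, (∀ j, cnt t j = d) ∧ ∀ u u', R u u' → c (ev t u) = c (ev t u')

theorem multi {A J : Type} [Finite A] [Finite J] {R : (J → A) → (J → A) → Prop} {d : ℕ}
    (hrefl : ∀ u, R u u) (h : RR A J R d) (S : Type) [Finite S] :
    RR A (S × J) (fun u u' => ∀ s, R (fun j => u (s, j)) (fun j => u' (s, j))) d := by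
  classical
  refine Finite.induction_empty_option
    (P := fun S => RR A (S × J) (fun u u' => ∀ s, R (fun j => u (s, j)) (fun j => u' (s, j))) d)
    ?_ ?_ ?_ S
  · intro S1 S2 e ih K hK
    obtain ⟨N, hN, hc⟩ := ih K hK
    refine ⟨N, hN, fun c => ?_⟩
    obtain ⟨t, ht, hi⟩ := hc c
    refine ⟨fun i => Sum.map (fun q : S1 × J => (e q.1, q.2)) id (t i), ?_, ?_⟩
    · intro p
      rw [← ht (e.symm p.1, p.2)]
      unfold cnt
      refine Finset.sum_congr rfl fun i _ => ?_
      dsimp only
      cases t i with
      | inl q =>
        by_cases hq : q = (e.symm p.1, p.2)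
        · subst hq
          rw [ind_inl]
          simp only [Sum.map_inl, Equiv.apply_symm_apply]
          exact ind_inl p
        · rw [ind_inl_ne hq]
          simp only [Sum.map_inl]
          refine ind_inl_ne ?_
          intro hh
          apply hq
          rw [← hh]
          simp
      | inr a => simp [ind_inr]
    · intro u u' hu
      have e1 : ∀ w : S2 × J → A, ev (fun i => Sum.map (fun q : S1 × J => (e q.1, q.2)) id (t i)) w
          = ev t (fun q => w (e q.1, q.2)) := by
        intro w
        funext i
        unfold ev
        dsimp only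
        cases t i <;> simp
      rw [e1, e1]
      exact hi _ _ (fun s => hu (e s))
  · intro K hK
    refine ⟨Empty, inferInstance, fun c => ⟨fun i => i.elim, ?_, ?_⟩⟩
    · intro j; exact j.1.elim
    · intro u u' _
      congr 1
      funext i; exact i.elim
  · intro S1 hS1 ih K hK
    have hKa : Finite ((J → A) → K) := inferInstance
    obtain ⟨Na, hNa, ha⟩ := ih ((J → A) → K) hKa
    have hKb : Finite ((Na → A) → K) := inferInstance
    obtain ⟨Nb, hNb, hb⟩ := h ((Na → A) → K) hKb
    refine ⟨Na ⊕ Nb, inferInstance, fun c => ?_⟩
    obtain ⟨tb, htb, hib⟩ := hb (fun z y => c (Sum.elim y z))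
    obtain ⟨ta, hta, hia⟩ := ha (fun y u => c (Sum.elim y (ev tb u)))
    refine ⟨Sum.elim (fun i => Sum.map (fun q : S1 × J => ((some q.1 : Option S1), q.2)) id (ta i))
      (fun i => Sum.map (fun j : J => ((none : Option S1), j)) id (tb i)), ?_, ?_⟩
    · intro p
      obtain ⟨s, j⟩ := p
      unfold cnt
      rw [Fintype.sum_sum_type]
      simp only [Sum.elim_inl, Sum.elim_inr]
      cases s with
      | none =>
        rw [Finset.sum_eq_zero, zero_add]
        · rw [← htb j]
          unfold cnt
          refine Finset.sum_congr rfl fun i _ => ?_
          cases tb i with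
          | inl q =>
            by_cases hq : q = j
            · subst hq; rw [ind_inl]; exact ind_inl _
            · rw [ind_inl_ne hq]
              refine ind_inl_ne ?_
              intro hh; exact hq (congrArg Prod.snd hh)
          | inr a => simp [ind_inr]
        · intro i _
          cases ta i with
          | inl q =>
            refine ind_inl_ne ?_
            intro hh
            have := congrArg Prod.fst hh
            simp at this
          | inr a => simp [ind_inr]
      | some s =>
        rw [Finset.sum_eq_zero (s := (Finset.univ : Finset Nb)), add_zero]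
        · rw [← hta (s, j)]
          unfold cnt
          refine Finset.sum_congr rfl fun i _ => ?_
          cases ta i with
          | inl q =>
            by_cases hq : q = (s, j)
            · subst hq; rw [ind_inl]; exact ind_inl _
            · rw [ind_inl_ne hq]
              refine ind_inl_ne ?_
              intro hh
              apply hq
              have h1 := congrArg Prod.fst hh
              have h2 := congrArg Prod.snd hh
              simp only [Option.some.injEq] at h1 h2
              exact Prod.ext h1 h2
          | inr a => simp [ind_inr]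
        · intro i _
          cases tb i with
          | inl q =>
            refine ind_inl_ne ?_
            intro hh
            have := congrArg Prod.fst hh
            simp at this
          | inr a => simp [ind_inr]
    · intro u u' hu
      have e1 : ∀ w : Option S1 × J → A,
          ev (Sum.elim (fun i => Sum.map (fun q : S1 × J => ((some q.1 : Option S1), q.2)) id (ta i))
            (fun i => Sum.map (fun j : J => ((none : Option S1), j)) id (tb i))) w
          = Sum.elim (ev ta (fun q => w (some q.1, q.2))) (ev tb (fun j => w (none, j))) := by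
        intro w
        funext i
        cases i with
        | inl i =>
          unfold ev
          simp only [Sum.elim_inl]
          cases ta i <;> simp
        | inr i =>
          unfold ev
          simp only [Sum.elim_inr]
          cases tb i <;> simp
      rw [e1, e1]
      have h1 := congrFun (hib (fun j => u (none, j)) (fun j => u' (none, j)) (hu none))
        (ev ta (fun q => u (some q.1, q.2)))
      have h2 := congrFun (hia (fun q => u (some q.1, q.2)) (fun q => u' (some q.1, q.2))
        (fun s => hu (some s))) (fun j => u' (none, j))
      exact h1.trans h2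

/-- The swap relation restricted to a set `Q` of unordered pairs. -/
def RQ {A : Type} (Q : Set (Sym2 A)) (u u' : Bool → A) : Prop :=
  u = u' ∨ (u' = (fun b => u (!b)) ∧ s(u false, u true) ∈ Q)

theorem pair_step {A : Type} [Finite A] (Q : Set (Sym2 A)) (z : Sym2 A) (d : ℕ)
    (h : RR A Bool (RQ Q) d) : RR A Bool (RQ (insert z Q)) (2 * d) := by
  classical
  intro K hK
  have hrefl : ∀ u : Bool → A, RQ Q u u := fun u => Or.inl rfl
  obtain ⟨N, hN, hc⟩ := multi hrefl h (Option K) K hK
  refine ⟨N, hN, fun c => ?_⟩
  obtain ⟨t, ht, hi⟩ := hc c
  induction z using Sym2.ind with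
  | _ a b =>
  -- the word with `(a,b)` in slot `s` and `(b,a)` elsewhere
  let w : Option K → (Option K × Bool) → A := fun s q =>
    if q.1 = s then (if q.2 then b else a) else (if q.2 then a else b)
  have hfK : Fintype K := Fintype.ofFinite K
  obtain ⟨s, r, hsr, hcol⟩ := Fintype.exists_ne_map_eq_of_card_lt
    (fun s : Option K => c (ev t (w s))) (by simp)
  -- new pattern
  let f : Option K × Bool → Bool ⊕ A := fun q =>
    if q.1 = s then Sum.inl q.2 else if q.1 = r then Sum.inl (!q.2)
      else Sum.inr (if q.2 then a else b)
  have hev : ∀ u : Bool → A, ev (sub t f) u = ev t (fun q =>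
      if q.1 = s then u q.2 else if q.1 = r then u (!q.2) else (if q.2 then a else b)) := by
    intro u
    rw [ev_sub]
    congr 1
    funext q
    unfold ev
    simp only [f]
    split_ifs <;> simp
  refine ⟨sub t f, ?_, ?_⟩
  · intro e
    rw [cnt_sub_const t f d ht e, mul_comm]
    congr 1
    unfold cnt
    have hsum : ∀ q : Option K × Bool, ind (f q) e
        = (if q = (s, e) then 1 else 0) + (if q = (r, !e) then 1 else 0) := by
      intro q
      obtain ⟨q1, q2⟩ := q
      simp only [f]
      by_cases h1 : q1 = s
      · subst h1
        rw [if_pos rfl]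
        have : ¬ ((q1, q2) = (r, !e)) := by
          intro hh; exact hsr (congrArg Prod.fst hh)
        rw [if_neg this]
        by_cases h2 : q2 = e
        · subst h2; rw [ind_inl]; simp
        · rw [ind_inl_ne h2]
          simp [h2]
      · rw [if_neg h1]
        have : ¬ ((q1, q2) = (s, e)) := by
          intro hh; exact h1 (congrArg Prod.fst hh)
        rw [if_neg this]
        by_cases h3 : q1 = r
        · subst h3
          rw [if_pos rfl]
          by_cases h2 : q2 = !e
          · subst h2
            simp only [Bool.not_not]
            rw [ind_inl]; simp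
          · have : (!q2) ≠ e := by
              intro hh; apply h2; rw [← hh]; simp
            rw [ind_inl_ne this]
            simp [h2]
        · rw [if_neg h3, ind_inr]
          have : ¬ ((q1, q2) = (r, !e)) := by
            intro hh; exact h3 (congrArg Prod.fst hh)
          rw [if_neg this]
    simp_rw [hsum]
    rw [Finset.sum_add_distrib]
    simp
  · intro u u' huu
    rcases huu with huu | ⟨hu', hmem⟩
    · rw [huu]
    rw [hev, hev]
    rcases hmem with hmem | hmem
    · -- the new pair
      have hcases : (u false = a ∧ u true = b) ∨ (u false = b ∧ u true = a) := by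
        rw [Sym2.eq_iff] at hmem
        exact hmem
      have key : ∀ v : Bool → A, v false = a → v true = b →
          (fun q : Option K × Bool => if q.1 = s then v q.2 else if q.1 = r then v (!q.2)
            else (if q.2 then a else b)) = w s ∧
          (fun q : Option K × Bool => if q.1 = s then v (!q.2) else if q.1 = r then v (!(!q.2))
            else (if q.2 then a else b)) = w r := by
        intro v hv1 hv2
        constructor
        · funext q
          obtain ⟨q1, q2⟩ := q
          simp only [w]
          by_cases h1 : q1 = s
          · rw [if_pos h1, if_pos h1]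
            cases q2 <;> simp [hv1, hv2]
          · rw [if_neg h1, if_neg h1]
            by_cases h2 : q1 = r
            · rw [if_pos h2]
              cases q2 <;> simp [hv1, hv2]
            · rw [if_neg h2]
        · funext q
          obtain ⟨q1, q2⟩ := q
          simp only [w]
          by_cases h1 : q1 = s
          · have h1' : ¬ q1 = r := fun hh => hsr (h1.symm.trans hh)
            rw [if_pos h1, if_neg h1']
            cases q2 <;> simp [hv1, hv2]
          · rw [if_neg h1]
            by_cases h2 : q1 = r
            · rw [if_pos h2, if_pos h2]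
              cases q2 <;> simp [hv1, hv2]
            · rw [if_neg h2, if_neg h2]
      rcases hcases with ⟨h1, h2⟩ | ⟨h1, h2⟩
      · obtain ⟨k1, k2⟩ := key u h1 h2
        rw [k1, hu', k2]
        exact hcol
      · have hv1 : u' false = a := by rw [hu']; simpa using h2
        have hv2 : u' true = b := by rw [hu']; simpa using h1
        obtain ⟨k1, k2⟩ := key u' hv1 hv2
        have huu' : u = fun b => u' (!b) := by
          funext b; rw [hu']; simp
        rw [k1, huu', k2]
        exact hcol.symm
    · refine hi _ _ ?_
      intro q
      by_cases h1 : q = s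
      · right
        subst h1
        refine ⟨?_, ?_⟩
        · funext b
          simp [hu']
        · simpa using hmem
      · by_cases h2 : q = r
        · right
          subst h2
          refine ⟨?_, ?_⟩
          · funext b
            simp [hu', h1]
          · simp only [h1, if_false, if_true, Bool.not_false, Bool.not_true]
            rw [Sym2.eq_swap]
            exact hmem
        · left
          funext b
          simp [h1, h2]

theorem pair_all {A : Type} [Finite A] : ∃ d, 0 < d ∧ RR A Bool (RQ (Set.univ : Set (Sym2 A))) d := by
  have : ∀ Q : Set (Sym2 A), Q.Finite → ∃ d, 0 < d ∧ RR A Bool (RQ Q) d := by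
    intro Q hQ
    refine Set.Finite.induction_on (motive := fun Q _ => ∃ d, 0 < d ∧ RR A Bool (RQ Q) d) Q hQ ?_ ?_
    · refine ⟨1, one_pos, ?_⟩
      intro K hK
      refine ⟨Bool, inferInstance, fun c => ⟨fun b => Sum.inl b, ?_, ?_⟩⟩
      · intro j
        exact cnt_inj (fun b : Bool => b) (fun _ _ h => h) j
      · intro u u' h
        rcases h with h | ⟨_, h⟩
        · rw [h]
        · exact absurd h (Set.notMem_empty _)
    · intro z Q' _ _ ih
      obtain ⟨d, hd, h⟩ := ih
      exact ⟨2 * d, by omega, pair_step Q' z d h⟩
  have hfin : Finite (Sym2 A) := Quot.finite _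
  exact this Set.univ Set.finite_univ

/-- The Ramsey property for a value map. -/
def RV {A J V : Type} (val : (J → A) → V) : Prop :=
  ∃ d, 0 < d ∧ RR A J (fun u u' => val u = val u') d

theorem comp_RV {A J V J' V' : Type} [Finite A] [Finite J] [Finite J'] (val : (J → A) → V)
    (val' : (J' → V) → V') (hs : Function.Surjective val) (h : RV val) (h' : RV val') :
    RV (fun u : J × J' → A => val' (fun j' => val (fun j => u (j, j')))) := by
  classical
  obtain ⟨d, hd, h⟩ := h
  obtain ⟨d', hd', h'⟩ := h'
  refine ⟨d * d', Nat.mul_pos hd hd', ?_⟩
  intro K hK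
  choose w hw using hs
  obtain ⟨N', hN', hc'⟩ := h' K hK
  obtain ⟨N, hN, hc⟩ := multi (R := fun u u' => val u = val u') (fun _ => rfl) h N' K hK
  refine ⟨N, hN, fun c => ?_⟩
  obtain ⟨t, ht, hi⟩ := hc c
  obtain ⟨t', ht', hi'⟩ := hc' (fun v => c (ev t (fun q => w (v q.1) q.2)))
  let f : N' × J → (J × J') ⊕ A := fun q =>
    match t' q.1 with
    | Sum.inl j' => Sum.inl (q.2, j')
    | Sum.inr v => Sum.inr (w v q.2)
  have hf : f = fun q => Sum.elim (fun j' => Sum.inl (q.2, j')) (fun v => Sum.inr (w v q.2))
      (t' q.1) := by
    funext q
    simp only [f]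
    cases t' q.1 <;> rfl
  have hfJ : Fintype J := Fintype.ofFinite J
  refine ⟨sub t f, ?_, ?_⟩
  · intro p
    rw [cnt_sub_const t f d ht p]
    congr 1
    rw [← ht' p.2]
    unfold cnt
    rw [Fintype.sum_prod_type]
    refine Finset.sum_congr rfl fun s _ => ?_
    rw [hf]
    simp only
    cases t' s with
    | inl j' =>
      simp only [Sum.elim_inl]
      by_cases hj : j' = p.2
      · subst hj
        rw [ind_inl]
        rw [Finset.sum_eq_single p.1]
        · exact ind_inl p
        · intro b _ hb
          refine ind_inl_ne ?_
          intro hh; exact hb (congrArg Prod.fst hh)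
        · intro hh; exact absurd (Finset.mem_univ _) hh
      · rw [ind_inl_ne hj]
        refine Finset.sum_eq_zero fun b _ => ?_
        refine ind_inl_ne ?_
        intro hh; exact hj (congrArg Prod.snd hh)
    | inr v => simp [ind_inr]
  · have key : ∀ U : J × J' → A, c (ev (sub t f) U)
        = c (ev t (fun q => w (ev t' (fun j' => val (fun j => U (j, j'))) q.1) q.2)) := by
      intro U
      rw [ev_sub]
      refine hi _ _ ?_
      intro s
      simp only
      have e2 : (fun j => w (ev t' (fun j' => val (fun j => U (j, j'))) s) j)
          = w (ev t' (fun j' => val (fun j => U (j, j'))) s) := rfl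
      rw [e2, hw]
      rw [hf]
      unfold ev
      simp only
      cases t' s with
      | inl j' => simp
      | inr v => simp [hw]
    intro U U' hU
    rw [key, key]
    exact hi' _ _ hU

theorem Sys.RV {A J V : Type} {val : (J → A) → V} (h : Sys A J V val) (hA : Finite A) :
    RV val := by
  induction h with
  | base A =>
    refine ⟨1, one_pos, ?_⟩
    intro K hK
    refine ⟨Unit, inferInstance, fun c => ⟨fun b => Sum.inl b, ?_, ?_⟩⟩
    · intro j
      exact cnt_inj (fun b : Unit => b) (fun _ _ h => h) j
    · intro u u' h
      have : u = u' := by funext x; exact h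
      rw [this]
  | pair A =>
    obtain ⟨d, hd, h⟩ := pair_all (A := A)
    refine ⟨d, hd, ?_⟩
    intro K hK
    obtain ⟨N, hN, hc⟩ := h K hK
    refine ⟨N, hN, fun c => ?_⟩
    obtain ⟨t, ht, hi⟩ := hc c
    refine ⟨t, ht, ?_⟩
    intro u u' huu
    refine hi _ _ ?_
    rw [Sym2.eq_iff] at huu
    rcases huu with ⟨h1, h2⟩ | ⟨h1, h2⟩
    · left
      funext b
      cases b
      · exact h1
      · exact h2
    · right
      refine ⟨?_, Set.mem_univ _⟩
      funext b
      cases b
      · exact h2.symm
      · exact h1.symm
  | comp val val' h1 h2 ih ih' =>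
    have := h1.finJ
    have := h2.finJ
    have := h1.finV
    exact comp_RV val val' h1.surj (ih hA) (ih' this)

end Pool.Agent.H228R4
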