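import Pool.Agent.H228R4.Equalizer
import Pool.Agent.H228R4.Ramsey

set_option autoImplicit false

namespace Pool.Agent.H228R4

open Finset

theorem blocks_aux (m l : ℕ) (hm : 0 < m) : ∃ d, 0 < d ∧ ∀ k : ℕ, ∃ n : ℕ,
    ∀ c : (Fin n → Fin m) → Fin k, ∃ t : Fin n → Fin (l + 1) ⊕ Fin m,
      (∀ p, cnt t p = d) ∧
      ∀ x y : Fin (l + 1) → Fin m, ms x = ms y → c (ev t x) = c (ev t y) := by
  obtain ⟨J, V, hJ, val, lam, hsys, hsym, μ, hμ, hcnt⟩ :=
    equalizer l (Fin m) inferInstance ⟨⟨0, hm⟩⟩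
  obtain ⟨d, hd, hR⟩ := hsys.RV inferInstance
  refine ⟨d * μ, Nat.mul_pos hd hμ, fun k => ?_⟩
  obtain ⟨N, hN, hc⟩ := hR (Fin k) inferInstance
  refine ⟨Fintype.card N, fun c => ?_⟩
  let e : N ≃ Fin (Fintype.card N) := Fintype.equivFin N
  obtain ⟨t, ht, hi⟩ := hc (fun z => c (fun i => z (e.symm i)))
  refine ⟨sub (fun i => t (e.symm i)) lam, ?_, ?_⟩
  · intro p
    rw [cnt_sub_const _ lam d ?_ p, hcnt]
    intro j
    rw [← ht j]
    unfold cnt
    exact Equiv.sum_comp e.symm (fun i => ind (t i) j)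
  · intro x y hxy
    rw [ev_sub, ev_sub]
    exact hi _ _ (hsym x y hxy)

lemma cnt_card {n m l : ℕ} (t : Fin n → Fin l ⊕ Fin m) (p : Fin l) :
    (Finset.univ.filter (fun i => t i = Sum.inl p)).card = cnt t p := by
  rw [Finset.card_filter]
  unfold cnt ind
  refine Finset.sum_congr rfl fun i _ => ?_
  by_cases h : t i = Sum.inl p
  · rw [if_pos h, if_pos h]
  · rw [if_neg h, if_neg h]

/-- The block sets theorem: one block size `d` for all numbers of colours, and one system of
blocks that is good for all templates of length `l` at once. -/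
theorem blocks (m l : ℕ) (hm : 0 < m) : ∃ d : ℕ, 0 < d ∧ ∀ k : ℕ, 0 < k → ∃ n : ℕ, 0 < n ∧
    ∀ c : (Fin n → Fin m) → Fin k,
      ∃ I : Fin l → Finset (Fin n), ∃ a : Fin n → Fin m,
        (∀ j, (I j).card = d) ∧
        (Pairwise fun j j' => Disjoint (I j) (I j')) ∧
        ∀ T : Fin l → Fin m, ∃ col : Fin k, ∀ w : Fin n → Fin m,
          ((∀ i, (∀ j, i ∉ I j) → w i = a i) ∧
            ∃ σ : Equiv.Perm (Fin l), ∀ j, ∀ i ∈ I j, w i = T (σ j)) →
          c w = col := by
  cases l with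
  | zero =>
    refine ⟨1, one_pos, fun k hk => ⟨1, one_pos, fun c => ?_⟩⟩
    refine ⟨fun j => j.elim0, fun _ => ⟨0, hm⟩, fun j => j.elim0, fun j => j.elim0, ?_⟩
    intro T
    refine ⟨c (fun _ => ⟨0, hm⟩), ?_⟩
    rintro w ⟨hw, _⟩
    congr 1
    funext i
    exact hw i (fun j => j.elim0)
  | succ l =>
    obtain ⟨d, hd, h⟩ := blocks_aux m l hm
    refine ⟨d, hd, fun k hk => ?_⟩
    obtain ⟨n, hn⟩ := h k
    have hn0 : 0 < n := by
      obtain ⟨t, ht, _⟩ := hn (fun _ => ⟨0, hk⟩)
      rcases Nat.eq_zero_or_pos n with h0 | h0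
      · subst h0
        have := ht 0
        unfold cnt at this
        simp at this
        omega
      · exact h0
    refine ⟨n, hn0, fun c => ?_⟩
    obtain ⟨t, ht, hi⟩ := hn c
    refine ⟨fun j => Finset.univ.filter (fun i => t i = Sum.inl j),
      fun i => Sum.elim (fun _ => ⟨0, hm⟩) id (t i), ?_, ?_, ?_⟩
    · intro j
      rw [cnt_card, ht]
    · intro j j' hjj'
      rw [Finset.disjoint_left]
      intro i hi1 hi2
      rw [Finset.mem_filter] at hi1 hi2
      exact hjj' (Sum.inl.inj (hi1.2.symm.trans hi2.2))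
    · intro T
      refine ⟨c (ev t T), ?_⟩
      rintro w ⟨hw, σ, hσ⟩
      have hwe : w = ev t (fun j => T (σ j)) := by
        funext i
        unfold ev
        cases hti : t i with
        | inl j =>
          simp only [Sum.elim_inl]
          exact hσ j i (by simp [hti])
        | inr a =>
          simp only [Sum.elim_inr, id]
          have := hw i (by intro j; simp [hti])
          rw [this]
          dsimp only
          rw [hti]
          rfl
      rw [hwe]
      exact hi _ _ (ms_perm T σ)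

end Pool.Agent.H228R4
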