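import Pool.Agent.H228R4.Basic

set_option autoImplicit false

namespace Pool.Agent.H228R4

/-- The coordinatewise permutation given by a family of permutations. -/
def fnHom {G J J' : Type} [Group G] (act : G →* Equiv.Perm J) :
    (J' → G) →* Equiv.Perm (J × J') where
  toFun f :=
    { toFun := fun q => (act (f q.2) q.1, q.2)
      invFun := fun q => ((act (f q.2))⁻¹ q.1, q.2)
      left_inv := fun q => by simp
      right_inv := fun q => by simp }
  map_one' := by ext q <;> simp
  map_mul' f g := by ext q <;> simp

def fgHom {G' J J' : Type} [Group G'] (act' : G' →* Equiv.Perm J') :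
    G' →* Equiv.Perm (J × J') where
  toFun g :=
    { toFun := fun q => (q.1, act' g q.2)
      invFun := fun q => (q.1, (act' g)⁻¹ q.2)
      left_inv := fun q => by simp
      right_inv := fun q => by simp }
  map_one' := by ext q <;> simp
  map_mul' f g := by ext q <;> simp

/-- The action on the functions `J' → G`. -/
def phi {G G' J' : Type} [Group G] [Group G'] (act' : G' →* Equiv.Perm J') :
    G' →* MulAut (J' → G) where
  toFun g :=
    { toFun := fun f j' => f ((act' g)⁻¹ j')
      invFun := fun f j' => f (act' g j')
      left_inv := fun f => by funext j'; simp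
      right_inv := fun f => by funext j'; simp
      map_mul' := fun f f' => by funext j'; rfl }
  map_one' := by ext f j'; simp
  map_mul' g h := by ext f j'; simp [mul_inv_rev]

/-- Orbit property with a finite 2-group. -/
def OP {A J V : Type} (val : (J → A) → V) : Prop :=
  ∃ (G : Type) (_ : Group G), (∃ k : ℕ, Nat.card G = 2 ^ k) ∧ ∃ act : G →* Equiv.Perm J,
    ∀ u u' : J → A, val u = val u' → ∃ g : G, u' = fun j => u (act g j)

theorem Sys.OP {A J V : Type} {val : (J → A) → V} (h : Sys A J V val) : OP val := by
  induction h with
  | base A =>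
    refine ⟨Unit, inferInstance, ⟨0, by simp⟩, 1, ?_⟩
    intro u u' h
    exact ⟨1, by funext x; exact h.symm⟩
  | pair A =>
    refine ⟨Equiv.Perm Bool, inferInstance, ⟨1, ?_⟩, MonoidHom.id _, ?_⟩
    · rw [Nat.card_eq_fintype_card, Fintype.card_perm]
      simp
    · intro u u' h
      rw [Sym2.eq_iff] at h
      rcases h with ⟨h1, h2⟩ | ⟨h1, h2⟩
      · refine ⟨1, ?_⟩
        funext b
        cases b
        · exact h1.symm
        · exact h2.symm
      · refine ⟨Equiv.swap false true, ?_⟩
        funext b
        cases b
        · simpa using h2.symm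
        · simpa using h1.symm
  | @comp A J V J' V' val val' hs hs' ih ih' =>
    obtain ⟨G, hG, ⟨k, hk⟩, act, hact⟩ := ih
    obtain ⟨G', hG', ⟨k', hk'⟩, act', hact'⟩ := ih'
    have hJ' := hs'.finJ
    have hcompat : ∀ g : G', (fnHom (J' := J') act).comp (phi (G := G) act' g).toMonoidHom
        = (MulAut.conj (fgHom (J := J) act' g)).toMonoidHom.comp (fnHom (J' := J') act) := by
      intro g
      ext f q
      · simp [fnHom, fgHom, phi]
      · simp [fnHom, fgHom, phi]
    refine ⟨SemidirectProduct (J' → G) G' (phi act'), inferInstance, ⟨k * Nat.card J' + k', ?_⟩,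
      SemidirectProduct.lift (fnHom act) (fgHom act') hcompat, ?_⟩
    · rw [SemidirectProduct.card, Nat.card_fun, hk, hk', ← pow_mul, ← pow_add]
    · intro u u' h
      obtain ⟨g', hg'⟩ := hact' _ _ h
      have h1 : ∀ j', ∃ g : G, (fun j => u' (j, j')) = fun j => u (act g j, act' g' j') := by
        intro j'
        have := congrFun hg' j'
        exact hact _ _ this.symm
      choose f hf using h1
      refine ⟨SemidirectProduct.inr g' * SemidirectProduct.inl f, ?_⟩
      funext q
      rw [map_mul, SemidirectProduct.lift_inr, SemidirectProduct.lift_inl]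
      have := congrFun (hf q.2) q.1
      simpa [fnHom, fgHom] using this

end Pool.Agent.H228R4
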