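import Pool.Agent.H228R4.Equalizer
import Pool.Agent.H228R4.Group

set_option autoImplicit false

namespace Pool.Agent.H228R4

open Finset

/-- Coordinate permutations as isometries. -/
noncomputable def permIso (M : ℕ) : Equiv.Perm (Fin M) →*
    (EuclideanSpace ℝ (Fin M) ≃ᵢ EuclideanSpace ℝ (Fin M)) where
  toFun σ := (LinearIsometryEquiv.piLpCongrLeft 2 ℝ ℝ σ).toIsometryEquiv
  map_one' := by
    ext z i
    simp [LinearIsometryEquiv.piLpCongrLeft_apply, Equiv.piCongrLeft']
    rfl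
  map_mul' σ τ := by
    ext z i
    simp [LinearIsometryEquiv.piLpCongrLeft_apply, Equiv.piCongrLeft']
    rfl

lemma permIso_apply (M : ℕ) (σ : Equiv.Perm (Fin M)) (z : EuclideanSpace ℝ (Fin M)) (i : Fin M) :
    permIso M σ z i = z (σ⁻¹ i) := by
  simp [permIso, LinearIsometryEquiv.piLpCongrLeft_apply, Equiv.piCongrLeft']

/-- Permutations of the first factor transported to `Fin M`. -/
def liftPerm {J K : Type} {M : ℕ} (κ : Fin M ≃ J × K) : Equiv.Perm J →* Equiv.Perm (Fin M) where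
  toFun σ :=
    { toFun := fun i => κ.symm (σ (κ i).1, (κ i).2)
      invFun := fun i => κ.symm (σ⁻¹ (κ i).1, (κ i).2)
      left_inv := fun i => by simp
      right_inv := fun i => by simp }
  map_one' := by ext i; simp
  map_mul' σ τ := by ext i; simp

lemma liftPerm_apply {J K : Type} {M : ℕ} (κ : Fin M ≃ J × K) (σ : Equiv.Perm J) (i : Fin M) :
    liftPerm κ σ i = κ.symm (σ (κ i).1, (κ i).2) := rfl

/-- Every nonempty finite set on which its isometries act transitively lies in a finite set on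
which a finite 2-group of isometries acts transitively. -/
theorem embed (n : ℕ) (X : Set (EuclideanSpace ℝ (Fin n))) (hX : X.Finite) (hne : X.Nonempty)
    (htr : ∀ x ∈ X, ∀ y ∈ X, ∃ g : EuclideanSpace ℝ (Fin n) ≃ᵢ EuclideanSpace ℝ (Fin n),
      ⇑g '' X = X ∧ g x = y) :
    ∃ (m : ℕ) (Y : Set (EuclideanSpace ℝ (Fin m)))
      (f : EuclideanSpace ℝ (Fin n) → EuclideanSpace ℝ (Fin m)),
      Y.Finite ∧ Isometry f ∧ f '' X ⊆ Y ∧
      ∃ H : Subgroup (EuclideanSpace ℝ (Fin m) ≃ᵢ EuclideanSpace ℝ (Fin m)),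
        (∃ k : ℕ, Nat.card H = 2 ^ k) ∧ Group.IsSolvable ↥H ∧ (∀ h ∈ H, ⇑h '' Y = Y) ∧
        ∀ y ∈ Y, ∀ z ∈ Y, ∃ h ∈ H, h y = z := by
  classical
  have hXf : Finite X := hX
  have hXn : Nonempty X := hne.to_subtype
  -- the group of permutations of `X` induced by isometries
  let Q : Subgroup (Equiv.Perm X) :=
    { carrier := {π | ∃ g : EuclideanSpace ℝ (Fin n) ≃ᵢ EuclideanSpace ℝ (Fin n),
        ∀ x : X, g x = (π x : EuclideanSpace ℝ (Fin n))}
      mul_mem' := by
        rintro a b ⟨g, hg⟩ ⟨h, hh⟩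
        refine ⟨g * h, fun x => ?_⟩
        rw [IsometryEquiv.mul_apply, hh, hg]
        rfl
      one_mem' := ⟨1, fun x => rfl⟩
      inv_mem' := by
        rintro a ⟨g, hg⟩
        refine ⟨g⁻¹, fun x => ?_⟩
        have h1 := hg (a⁻¹ x)
        have h2 : a (a⁻¹ x) = x := by simp
        rw [h2] at h1
        rw [← h1]
        exact g.symm_apply_apply _ }
  have hQtr : ∀ a b : X, ∃ π : Q, π.1 b = a := by
    intro a b
    obtain ⟨g, hgX, hgb⟩ := htr b.1 b.2 a.1 a.2
    have hmem : ∀ x : X, g x ∈ X := by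
      intro x
      have hx : g x ∈ ⇑g '' X := ⟨x, x.2, rfl⟩
      rwa [hgX] at hx
    have hbij : Function.Bijective (fun x : X => (⟨g x, hmem x⟩ : X)) := by
      constructor
      · intro x y hxy
        have := congrArg Subtype.val hxy
        exact Subtype.ext (g.injective this)
      · intro y
        have hy : (y : EuclideanSpace ℝ (Fin n)) ∈ ⇑g '' X := by rw [hgX]; exact y.2
        obtain ⟨x, hx, hxy⟩ := hy
        exact ⟨⟨x, hx⟩, Subtype.ext hxy⟩
    refine ⟨⟨Equiv.ofBijective _ hbij, g, fun x => rfl⟩, ?_⟩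
    exact Subtype.ext hgb
  have hQf : Finite Q := inferInstance
  obtain ⟨m, ⟨e⟩⟩ : ∃ m : ℕ, Nonempty (Q ≃ Fin (m + 1)) := by
    have h1 : 0 < Nat.card Q := Nat.card_pos
    refine ⟨Nat.card Q - 1, ?_⟩
    have h2 : Nat.card Q - 1 + 1 = Nat.card Q := by omega
    rw [h2]
    exact ⟨Finite.equivFin Q⟩
  have hiso : ∀ π : Q, ∃ g : EuclideanSpace ℝ (Fin n) ≃ᵢ EuclideanSpace ℝ (Fin n),
      ∀ x : X, g x = (π.1 x : EuclideanSpace ℝ (Fin n)) := fun π => π.2
  choose h hh using hiso
  -- the words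
  let xa : X → Fin (m + 1) → X := fun a i => (e.symm i).1 a
  have hms : ∀ a b, ms (xa a) = ms (xa b) := by
    intro a b
    obtain ⟨ρ, hρ⟩ := hQtr a b
    have hσ : xa b = fun i => xa a (((e.symm.trans (Equiv.mulRight ρ⁻¹)).trans e) i) := by
      funext i
      simp only [xa, Equiv.trans_apply, Equiv.symm_apply_apply, Equiv.coe_mulRight]
      rw [← hρ]
      show _ = ((e.symm i).1 * (ρ⁻¹ : Q).1) (ρ.1 b)
      simp
    rw [hσ, ms_perm]
  obtain ⟨J, V, hJ, val, lam, hsys, hsym, μ, hμ, hcnt⟩ := equalizer m X hXf hXn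
  obtain ⟨G, hG, ⟨k, hk⟩, act, hact⟩ := hsys.OP
  let F : X → J → X := fun a => ev lam (xa a)
  have hF : ∀ a b, ∃ g : G, F b = fun j => F a (act g j) := fun a b =>
    hact _ _ (hsym _ _ (hms a b))
  have hGf : Finite G := Nat.finite_of_card_ne_zero (by rw [hk]; positivity)
  obtain ⟨a0⟩ := hXn
  let M := Fintype.card (J × Fin n)
  let κ : Fin M ≃ J × Fin n := (Fintype.equivFin (J × Fin n)).symm
  let K : ℕ := (m + 1) * μ
  have hK : 0 < K := Nat.mul_pos (by omega) hμ
  let c : ℝ := 1 / Real.sqrt K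
  have hc : c ^ 2 * K = 1 := by
    simp only [c]
    rw [div_pow, one_pow, Real.sq_sqrt (by positivity)]
    field_simp
  let P : EuclideanSpace ℝ (Fin n) → J → EuclideanSpace ℝ (Fin n) := fun z j =>
    Sum.elim (fun i => h (e.symm i) z) (fun a : X => (a : EuclideanSpace ℝ (Fin n))) (lam j)
  have hP : ∀ (a : X) j, P a j = (F a j : EuclideanSpace ℝ (Fin n)) := by
    intro a j
    simp only [P, F, ev]
    cases lam j with
    | inl i =>
      simp only [Sum.elim_inl, xa]
      exact hh _ a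
    | inr b => rfl
  let f : EuclideanSpace ℝ (Fin n) → EuclideanSpace ℝ (Fin M) := fun z =>
    WithLp.toLp 2 (fun i => c * (P z (κ i).1) (κ i).2)
  let pt : G → EuclideanSpace ℝ (Fin M) := fun g =>
    WithLp.toLp 2 (fun i => c * ((F a0 (act g (κ i).1) : EuclideanSpace ℝ (Fin n)) (κ i).2))
  let ψ : G →* (EuclideanSpace ℝ (Fin M) ≃ᵢ EuclideanSpace ℝ (Fin M)) :=
    (permIso M).comp ((liftPerm κ).comp act)
  have hψ : ∀ g g0, ψ g (pt g0) = pt (g0 * g⁻¹) := by
    intro g g0
    ext i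
    simp only [ψ, MonoidHom.comp_apply]
    rw [permIso_apply]
    simp only [pt]
    rw [← map_inv, ← map_inv, liftPerm_apply]
    simp [map_mul]
  refine ⟨M, Set.range pt, f, Set.finite_range pt, ?_, ?_, ψ.range, ?_, ?_, ?_, ?_⟩
  · -- isometry
    refine Isometry.of_dist_eq fun z z' => ?_
    rw [EuclideanSpace.dist_eq]
    have h1 : ∑ i, dist (f z i) (f z' i) ^ 2 = dist z z' ^ 2 := by
      have h2 : ∀ i, dist (f z i) (f z' i) ^ 2
          = c ^ 2 * (dist ((P z (κ i).1) (κ i).2) ((P z' (κ i).1) (κ i).2)) ^ 2 := by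
        intro i
        simp only [f]
        rw [Real.dist_eq, Real.dist_eq, sq_abs, sq_abs]
        ring
      simp_rw [h2]
      rw [Equiv.sum_comp κ (fun q => c ^ 2 * (dist ((P z q.1) q.2) ((P z' q.1) q.2)) ^ 2)]
      rw [← Finset.mul_sum, Fintype.sum_prod_type]
      have h3 : ∀ j, ∑ r, dist ((P z j) r) ((P z' j) r) ^ 2 = dist (P z j) (P z' j) ^ 2 := by
        intro j
        rw [EuclideanSpace.dist_eq (P z j) (P z' j), Real.sq_sqrt]
        exact Finset.sum_nonneg fun i _ => sq_nonneg _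
      simp_rw [h3]
      have h4 : ∀ j, dist (P z j) (P z' j) ^ 2
          = (∑ i : Fin (m + 1), (ind (lam j) i : ℝ)) * dist z z' ^ 2 := by
        intro j
        simp only [P]
        cases lam j with
        | inl i =>
          simp only [Sum.elim_inl]
          rw [(h (e.symm i)).dist_eq]
          rw [Finset.sum_eq_single i]
          · rw [ind_inl]; simp
          · intro b _ hb
            rw [ind_inl_ne (Ne.symm hb)]; simp
          · intro hh; exact absurd (Finset.mem_univ _) hh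
        | inr b =>
          simp [ind_inr]
      simp_rw [h4]
      rw [← Finset.sum_mul, Finset.sum_comm]
      have h5 : ∀ i : Fin (m + 1), ∑ j, (ind (lam j) i : ℝ) = μ := by
        intro i
        have := hcnt i
        unfold cnt at this
        exact_mod_cast this
      simp_rw [h5]
      simp only [Finset.sum_const, Finset.card_univ, Fintype.card_fin, nsmul_eq_mul]
      rw [← mul_assoc]
      have h6 : c ^ 2 * (((m + 1 : ℕ) : ℝ) * μ) = 1 := by
        rw [← hc]
        simp only [K]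
        push_cast
        ring
      rw [h6, one_mul]
    rw [h1, Real.sqrt_sq dist_nonneg]
  · rintro _ ⟨a, ha, rfl⟩
    obtain ⟨g, hg⟩ := hF a0 ⟨a, ha⟩
    refine ⟨g, ?_⟩
    ext i
    simp only [pt, f]
    rw [hP ⟨a, ha⟩, hg]
  · have h2 : IsPGroup 2 ψ.range := by
      have : IsPGroup 2 G := IsPGroup.of_card hk
      rw [MonoidHom.range_eq_map]
      exact IsPGroup.map ((this.to_subgroup ⊤)) ψ
    have hfin : Finite ψ.range := Finite.of_surjective _ ψ.rangeRestrict_surjective
    exact IsPGroup.iff_card.1 h2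
  · have hp : IsPGroup 2 G := IsPGroup.of_card hk
    have hnil : Group.IsNilpotent G := hp.isNilpotent
    have hsolv : Group.IsSolvable G := inferInstance
    exact Group.isSolvable_of_surjective ψ.rangeRestrict_surjective
  · rintro _ ⟨g, rfl⟩
    ext z
    constructor
    · rintro ⟨_, ⟨g0, rfl⟩, rfl⟩
      exact ⟨g0 * g⁻¹, (hψ g g0).symm⟩
    · rintro ⟨g0, rfl⟩
      refine ⟨pt (g0 * g), ⟨_, rfl⟩, ?_⟩
      rw [hψ]
      simp
  · rintro _ ⟨g1, rfl⟩ _ ⟨g2, rfl⟩
    refine ⟨ψ (g2⁻¹ * g1), ⟨_, rfl⟩, ?_⟩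
    rw [hψ]
    simp

end Pool.Agent.H228R4
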