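import Pool.Agent.H978R3.SL.Stmts

/-!
# Task B1 of project H978-SL: path lifting of `t ↦ exp (s1 + t a)` through a meromorphic `G`
-/

set_option autoImplicit false

open Set Filter Topology Metric Bornology

namespace Pool.Agent.H228R4.SLB1

open Pool.Agent.H978R3.SL

theorem limit_point {G : ℂ → ℂ} (hG : MF G) {ι : Type*} {u : Filter ι} [u.NeBot] {z : ι → ℂ}
    {z0 w0 : ℂ} (hz : Tendsto z u (𝓝 z0)) (han : ∀ᶠ i in u, AnalyticAt ℂ G (z i))
    (hw : Tendsto (fun i => G (z i)) u (𝓝 w0)) : AnalyticAt ℂ G z0 ∧ G z0 = w0 := by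
  by_cases hA : AnalyticAt ℂ G z0
  · exact ⟨hA, tendsto_nhds_unique (hA.continuousAt.tendsto.comp hz) hw⟩
  · exfalso
    have hp := hG.pole_of hA
    have hz' : Tendsto z u (𝓝[≠] z0) := by
      rw [tendsto_nhdsWithin_iff]
      refine ⟨hz, ?_⟩
      filter_upwards [han] with i hi h0
      have h0' : z i = z0 := h0
      rw [h0'] at hi
      exact hA hi
    have h1 : Tendsto (fun i => G (z i)) u (cobounded ℂ) := hp.2.comp hz'
    exact (hw.not_tendsto (Metric.disjoint_nhds_cobounded w0)) h1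

theorem step {G : ℂ → ℂ} {w : ℝ → ℂ} {w' : ℝ → ℂ} {K x c0 : ℝ} {z0 : ℂ}
    (hwd : ∀ t, HasDerivAt w (w' t) t) (hxc : x < c0) (hz0 : AnalyticAt ℂ G z0)
    (hGz : G z0 = w x) (hd0 : deriv G z0 ≠ 0)
    (hK : ∀ t ∈ Icc x c0, ∀ ζ, AnalyticAt ℂ G ζ → G ζ = w t →
      deriv G ζ ≠ 0 ∧ ‖(deriv G ζ)⁻¹ * w' t‖ ≤ K) :
    ∃ c, x < c ∧ c ≤ c0 ∧ ∃ h : ℝ → ℂ, h x = z0 ∧
      (∀ t ∈ Icc x c, AnalyticAt ℂ G (h t) ∧ G (h t) = w t) ∧
      ∀ s ∈ Icc x c, ∀ t ∈ Icc x c, ‖h s - h t‖ ≤ K * |s - t| := by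
  have hstr : HasStrictDerivAt G (deriv G z0) z0 := hz0.hasStrictDerivAt
  have hstr2 : HasStrictFDerivAt G
    (ContinuousLinearEquiv.unitsEquivAut ℂ (Units.mk0 (deriv G z0) hd0) : ℂ →L[ℂ] ℂ) z0 :=
    hstr.hasStrictFDerivAt_equiv hd0
  set e := hstr2.toOpenPartialHomeomorph G with he
  have hecoe : ∀ z, e z = G z := fun z => by rw [he, HasStrictFDerivAt.toOpenPartialHomeomorph_coe]
  have hz0s : z0 ∈ e.source := hstr2.mem_toOpenPartialHomeomorph_source
  have hwt : w x ∈ e.target := by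
    rw [← hGz, ← hecoe]; exact e.map_source hz0s
  have hsymm0 : e.symm (w x) = z0 := by
    rw [← hGz, ← hecoe]; exact e.left_inv hz0s
  have hwc : Continuous w := continuous_iff_continuousAt.2 fun t => (hwd t).continuousAt
  have hcs : ContinuousAt (fun t => e.symm (w t)) x :=
    ContinuousAt.comp (e.continuousAt_symm hwt) hwc.continuousAt
  have hev : ∀ᶠ t in 𝓝 x, w t ∈ e.target ∧ AnalyticAt ℂ G (e.symm (w t)) := by
    have h1 : ∀ᶠ t in 𝓝 x, w t ∈ e.target :=
      hwc.continuousAt.eventually (e.open_target.mem_nhds hwt)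
    have h2 : ∀ᶠ z in 𝓝 (e.symm (w x)), AnalyticAt ℂ G z := by
      rw [hsymm0]; exact hz0.eventually_analyticAt
    filter_upwards [h1, hcs.eventually h2] with t h3 h4 using ⟨h3, h4⟩
  obtain ⟨δ, hδ, hδ2⟩ := Metric.eventually_nhds_iff.1 hev
  set c := min c0 (x + δ / 2) with hc
  have hxc' : x < c := lt_min hxc (by linarith)
  have hcc0 : c ≤ c0 := min_le_left _ _
  have hgood : ∀ t ∈ Icc x c, w t ∈ e.target ∧ AnalyticAt ℂ G (e.symm (w t)) := by
    intro t ht
    apply hδ2
    rw [Real.dist_eq, abs_of_nonneg (by linarith [ht.1])]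
    have : t ≤ x + δ / 2 := ht.2.trans (min_le_right _ _)
    linarith
  have hGh : ∀ t ∈ Icc x c, G (e.symm (w t)) = w t := by
    intro t ht
    rw [← hecoe]; exact e.right_inv (hgood t ht).1
  refine ⟨c, hxc', hcc0, fun t => e.symm (w t), hsymm0, fun t ht => ⟨(hgood t ht).2, hGh t ht⟩, ?_⟩
  have hder : ∀ t ∈ Icc x c, HasDerivAt (fun t => e.symm (w t))
      ((deriv G (e.symm (w t)))⁻¹ * w' t) t := by
    intro t ht
    have h1 := hK t ⟨ht.1, ht.2.trans hcc0⟩ _ (hgood t ht).2 (hGh t ht)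
    have h2 : HasDerivAt e (deriv G (e.symm (w t))) (e.symm (w t)) := by
      have : (e : ℂ → ℂ) = G := funext hecoe
      rw [this]
      exact (hgood t ht).2.differentiableAt.hasDerivAt
    have h3 := e.hasDerivAt_symm (hgood t ht).1 h1.1 h2
    exact h3.comp t (hwd t)
  intro s hs t ht
  have := (convex_Icc x c).norm_image_sub_le_of_norm_hasDerivWithin_le
    (f := fun t => e.symm (w t)) (f' := fun t => (deriv G (e.symm (w t)))⁻¹ * w' t) (C := K)
    (fun t ht => (hder t ht).hasDerivWithinAt)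
    (fun t ht => (hK t ⟨ht.1, ht.2.trans hcc0⟩ _ (hgood t ht).2 (hGh t ht)).2) ht hs
  rwa [Real.norm_eq_abs] at this

theorem taskB1 : TaskB1 := by
  intro G a s1 ζ1 hG ha1 hG1 hbd
  set w : ℝ → ℂ := fun t => Complex.exp (s1 + t * a) with hw
  have hwd : ∀ t : ℝ, HasDerivAt w (w t * a) t := by
    intro t
    have h1 : HasDerivAt (fun z : ℂ => Complex.exp (s1 + z * a)) (Complex.exp (s1 + t * a) * (1 * a)) (t : ℂ) := by
      exact (((hasDerivAt_id (t : ℂ)).mul_const a).const_add s1).cexp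
    have h2 := h1.comp_ofReal
    simpa [hw] using h2
  have hwc : Continuous w := by
    rw [hw]; fun_prop
  have hwnorm : ∀ t ∈ Icc (0:ℝ) 1, Real.exp (s1.re - ‖a‖) ≤ ‖w t‖ ∧
      ‖w t‖ ≤ Real.exp (s1.re + ‖a‖) := by
    intro t ht
    have h1 : ‖w t‖ = Real.exp (s1.re + t * a.re) := by
      simp only [hw, Complex.norm_exp]
      simp
    have h2 : |t * a.re| ≤ ‖a‖ := by
      rw [abs_mul, abs_of_nonneg ht.1]
      calc t * |a.re| ≤ 1 * |a.re| := by gcongr; exact ht.2
        _ = |a.re| := one_mul _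
        _ ≤ ‖a‖ := Complex.abs_re_le_norm a
    obtain ⟨h3, h4⟩ := abs_le.1 h2
    rw [h1]
    exact ⟨Real.exp_le_exp.2 (by linarith), Real.exp_le_exp.2 (by linarith)⟩
  obtain ⟨m, hm, hmd⟩ := hbd (Real.exp (s1.re - ‖a‖)) (Real.exp_pos _)
  set K : ℝ := m⁻¹ * (Real.exp (s1.re + ‖a‖) * ‖a‖) with hKdef
  have hK0 : 0 ≤ K := by positivity
  have hKb : ∀ t ∈ Icc (0:ℝ) 1, ∀ ζ, AnalyticAt ℂ G ζ → G ζ = w t →
      deriv G ζ ≠ 0 ∧ ‖(deriv G ζ)⁻¹ * (w t * a)‖ ≤ K := by
    intro t ht ζ hζ hGζ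
    have h1 : m ≤ ‖deriv G ζ‖ := hmd ζ hζ (by rw [hGζ]; exact (hwnorm t ht).1)
    have h2 : 0 < ‖deriv G ζ‖ := lt_of_lt_of_le hm h1
    refine ⟨norm_pos_iff.1 h2, ?_⟩
    rw [norm_mul, norm_inv, norm_mul, hKdef]
    have h3 := (hwnorm t ht).2
    gcongr
  set S : Set ℝ := {t | ∃ γ : ℝ → ℂ, (∀ s s', ‖γ s - γ s'‖ ≤ K * |s - s'|) ∧ γ 0 = ζ1 ∧
    ∀ s, AnalyticAt ℂ G (γ s) ∧ G (γ s) = w (max 0 (min s t))} with hS
  have hSclosed : IsClosed S := by
    rw [isClosed_iff_ultrafilter]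
    intro x u hux hSu
    have hex : ∀ t, ∃ γ : ℝ → ℂ, t ∈ S → ((∀ s s', ‖γ s - γ s'‖ ≤ K * |s - s'|) ∧ γ 0 = ζ1 ∧
        ∀ s, AnalyticAt ℂ G (γ s) ∧ G (γ s) = w (max 0 (min s t))) := by
      intro t
      by_cases h : t ∈ S
      · obtain ⟨γ, hγ⟩ := h
        exact ⟨γ, fun _ => hγ⟩
      · exact ⟨0, fun h' => absurd h' h⟩
    choose Γ hΓ using hex
    have hlim : ∀ s : ℝ, ∃ v : ℂ, Tendsto (fun t => Γ t s) u (𝓝 v) := by
      intro s
      have hcomp := isCompact_closedBall ζ1 (K * |s|)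
      have hle : ((u.map (fun t => Γ t s) : Ultrafilter ℂ) : Filter ℂ) ≤
          𝓟 (closedBall ζ1 (K * |s|)) := by
        rw [le_principal_iff, Ultrafilter.coe_map, Filter.mem_map]
        filter_upwards [hSu] with t ht
        show Γ t s ∈ closedBall ζ1 (K * |s|)
        rw [mem_closedBall, dist_eq_norm]
        have h1 := (hΓ t ht).1 s 0
        rw [(hΓ t ht).2.1, sub_zero] at h1
        exact h1
      obtain ⟨v, -, hv⟩ := hcomp.ultrafilter_le_nhds _ hle
      exact ⟨v, hv⟩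
    choose γ hγ using hlim
    refine ⟨γ, ?_, ?_, ?_⟩
    · intro s s'
      refine le_of_tendsto ((hγ s).sub (hγ s')).norm ?_
      filter_upwards [hSu] with t ht using (hΓ t ht).1 s s'
    · refine tendsto_nhds_unique (hγ 0) ?_
      refine Tendsto.congr' ?_ tendsto_const_nhds
      filter_upwards [hSu] with t ht using ((hΓ t ht).2.1).symm
    · intro s
      refine limit_point hG (hγ s) ?_ ?_
      · filter_upwards [hSu] with t ht using ((hΓ t ht).2.2 s).1
      · have h1 : Tendsto (fun t : ℝ => w (max 0 (min s t))) u (𝓝 (w (max 0 (min s x)))) := by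
          have hcont : Continuous fun t : ℝ => w (max 0 (min s t)) := by fun_prop
          exact (hcont.tendsto x).mono_left hux
        refine Tendsto.congr' ?_ h1
        filter_upwards [hSu] with t ht using (((hΓ t ht).2.2 s).2).symm
  have h0S : (0:ℝ) ∈ S := by
    refine ⟨fun _ => ζ1, fun s s' => by simp; positivity, rfl, fun s => ⟨ha1, ?_⟩⟩
    have : max (0:ℝ) (min s 0) = 0 := by simp
    rw [this, hG1, hw]
    simp
  have hsub : Icc (0:ℝ) 1 ⊆ S := by
    refine IsClosed.Icc_subset_of_forall_exists_gt (hSclosed.inter isClosed_Icc) h0S ?_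
    rintro x ⟨hxS, hx0, hx1⟩ y hy
    obtain ⟨γ, hγ1, hγ2, hγ3⟩ := hxS
    have hxy : x < min y 1 := lt_min hy hx1
    have hz := hγ3 x
    have hmx : max 0 (min x x) = x := by rw [min_self, max_eq_right hx0]
    rw [hmx] at hz
    have hd0 := (hKb x ⟨hx0, hx1.le⟩ _ hz.1 hz.2).1
    obtain ⟨c, hxc, hc, h, hh0, hh1, hh2⟩ := step (K := K) hwd hxy hz.1 hz.2 hd0 (by
      intro t ht
      exact hKb t ⟨hx0.trans ht.1, ht.2.trans (min_le_right _ _)⟩)
    refine ⟨c, ?_, hxc, hc.trans (min_le_left _ _)⟩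
    refine ⟨fun s => if s ≤ x then γ s else h (min s c), ?_, ?_, ?_⟩
    · have key : ∀ s s' : ℝ, s ≤ s' → ‖(if s ≤ x then γ s else h (min s c)) -
          (if s' ≤ x then γ s' else h (min s' c))‖ ≤ K * |s - s'| := by
        intro s s' hss
        by_cases h1 : s' ≤ x
        · rw [if_pos (hss.trans h1), if_pos h1]
          exact hγ1 s s'
        · rw [if_neg h1]
          push Not at h1
          by_cases h2 : s ≤ x
          · rw [if_pos h2]
            have e1 := hγ1 s x
            have e2 := hh2 x ⟨le_refl _, hxc.le⟩ (min s' c) ⟨le_min h1.le hxc.le, min_le_right _ _⟩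
            rw [hh0] at e2
            rw [abs_of_nonpos (by linarith)] at e1 ⊢
            have e3 : |x - min s' c| ≤ s' - x := by
              rw [abs_of_nonpos (by linarith [le_min h1.le hxc.le])]
              linarith [min_le_left s' c]
            calc ‖γ s - h (min s' c)‖ = ‖(γ s - γ x) + (γ x - h (min s' c))‖ := by congr 1; ring
              _ ≤ K * -(s - x) + K * |x - min s' c| := (norm_add_le _ _).trans (add_le_add e1 e2)
              _ ≤ K * -(s - x) + K * (s' - x) := by gcongr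
              _ = K * -(s - s') := by ring
          · rw [if_neg h2]
            push Not at h2
            have e2 := hh2 (min s c) ⟨le_min h2.le hxc.le, min_le_right _ _⟩ (min s' c)
              ⟨le_min h1.le hxc.le, min_le_right _ _⟩
            refine e2.trans ?_
            have e4 : |min s c - min s' c| ≤ |s - s'| := by
              have := abs_min_sub_min_le_max s c s' c
              simpa using this
            gcongr
      intro s s'
      rcases le_total s s' with h1 | h1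
      · exact key s s' h1
      · have := key s' s h1
        rw [norm_sub_rev, abs_sub_comm] at this
        exact this
    · show (if (0:ℝ) ≤ x then γ 0 else h (min 0 c)) = ζ1
      rw [if_pos hx0, hγ2]
    · intro s
      by_cases h1 : s ≤ x
      · have h2 := hγ3 s
        show AnalyticAt ℂ G (if s ≤ x then γ s else h (min s c)) ∧
          G (if s ≤ x then γ s else h (min s c)) = _
        rw [if_pos h1, min_eq_left (h1.trans hxc.le)]
        rw [min_eq_left h1] at h2
        exact h2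
      · show AnalyticAt ℂ G (if s ≤ x then γ s else h (min s c)) ∧
          G (if s ≤ x then γ s else h (min s c)) = _
        rw [if_neg h1]
        push Not at h1
        have h2 := hh1 (min s c) ⟨le_min h1.le hxc.le, min_le_right _ _⟩
        rw [max_eq_right (le_min (hx0.trans h1.le) (hx0.trans hxc.le))]
        exact h2
  obtain ⟨γ, hγ1, hγ2, hγ3⟩ := hsub (right_mem_Icc.2 zero_le_one)
  refine ⟨γ, ?_, hγ2, ?_⟩
  · have : LipschitzWith K.toNNReal γ := by
      refine LipschitzWith.of_dist_le_mul fun s s' => ?_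
      rw [dist_eq_norm, Real.dist_eq, Real.coe_toNNReal _ hK0]
      exact hγ1 s s'
    exact this.continuous.continuousOn
  · intro t ht
    have h2 := hγ3 t
    rw [min_eq_left ht.2, max_eq_right ht.1] at h2
    exact h2

end Pool.Agent.H228R4.SLB1
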